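import Mathlib
import Pool.Agent.H220.TS.Stm

set_option autoImplicit false

/-!
Proof of `Pool.Agent.H220.TS.S_orbit` from `S_pick`, `S_cay`, `S_julia`, `S_tan`.
-/

open Set Filter Topology Metric
open scoped ComplexConjugate

namespace Pool.Agent.H280.TS

open Pool.Agent.H220.TS

theorem omega_nonneg (h₁ : S_pick) (z w : ℂ) (hz : z ∈ D) (hw : w ∈ D) : 0 ≤ omega z w := by
  have h1 := h₁.1 z hz w hw
  have h0 : 0 ≤ psi z w := norm_nonneg _
  unfold omega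
  have : 0 ≤ Real.log ((1 + psi z w) / (1 - psi z w)) := by
    apply Real.log_nonneg
    rw [le_div_iff₀ (by linarith)]
    linarith
  linarith

theorem mem_diam {τ : ℂ} (hτ : ‖τ‖ = 1) (r : ℝ) (h1 : -1 < r) (h2 : r < 1) : (r : ℂ) * τ ∈ D := by
  unfold D
  rw [mem_ball_zero_iff, norm_mul, hτ, mul_one, Complex.norm_real, Real.norm_eq_abs]
  exact abs_lt.mpr ⟨h1, h2⟩

theorem step_bound (w w' : ℂ) (ρ : ℝ) (hw : 0 < w.re) (hw' : 0 < w'.re)
    (hρ : ρ = ‖w - w'‖ / ‖w + conj w'‖) (hρ0 : 0 ≤ ρ) (hρ1 : ρ < 1) :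
    ‖w'‖ ≤ ‖w‖ + 2 * ρ / (1 - ρ) * w.re := by
  have he : 0 < ‖w + conj w'‖ := by
    rw [norm_pos_iff]
    intro h
    have := congrArg Complex.re h
    simp only [Complex.add_re, Complex.conj_re, Complex.zero_re] at this
    linarith
  have hd : ‖w - w'‖ = ρ * ‖w + conj w'‖ := by
    rw [hρ]
    field_simp
  have he2 : ‖w + conj w'‖ ≤ ‖w - w'‖ + 2 * w.re := by
    have e1 : w + conj w' = conj (w' - w) + ((2 * w.re : ℝ) : ℂ) := by
      rw [map_sub]
      apply Complex.ext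
      · simp only [Complex.add_re, Complex.sub_re, Complex.conj_re, Complex.ofReal_re]
        ring
      · simp only [Complex.add_im, Complex.sub_im, Complex.conj_im, Complex.ofReal_im]
        ring
    rw [e1]
    refine (norm_add_le _ _).trans ?_
    rw [Complex.norm_conj, norm_sub_rev, Complex.norm_real, Real.norm_eq_abs,
      abs_of_pos (by linarith)]
  have h3 : ‖w - w'‖ * (1 - ρ) ≤ 2 * ρ * w.re := by
    have := mul_le_mul_of_nonneg_left he2 hρ0
    nlinarith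
  have h4 : ‖w - w'‖ ≤ 2 * ρ / (1 - ρ) * w.re := by
    rw [div_mul_eq_mul_div, le_div_iff₀ (by linarith)]
    exact h3
  have h5 : ‖w'‖ ≤ ‖w‖ + ‖w - w'‖ := by
    have := norm_sub_norm_le w' w
    rw [norm_sub_rev] at this
    linarith
  linarith

theorem s_orbit (h₁ : S_pick) (h₂ : S_cay) (h₃ : S_julia) (h₄ : S_tan) : S_orbit := by
  intro φ τ C hφ hDW hv
  have hτ : ‖τ‖ = 1 := hDW.1
  have h0D : (0 : ℂ) ∈ D := by
    unfold D
    exact mem_ball_self one_pos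
  have hz : ∀ n : ℕ, φ n 0 ∈ D := fun n => hφ.maps n (Nat.cast_nonneg n) h0D
  have hz' : ∀ n : ℕ, φ (n + 1) 0 ∈ D := fun n => hφ.maps (n + 1) (by positivity) h0D
  have hstep : ∀ n : ℕ, φ (n + 1) 0 = φ 1 (φ n 0) := by
    intro n
    rw [add_comm]
    exact hφ.add 1 n zero_le_one (Nat.cast_nonneg n) 0 h0D
  obtain ⟨ρ, hρ⟩ : ∃ ρ : ℕ → ℝ, ∀ n : ℕ, ρ n = psi (φ n 0) (φ (n + 1) 0) := ⟨_, fun _ => rfl⟩
  have hρ0 : ∀ n, 0 ≤ ρ n := fun n => by
    rw [hρ]
    exact norm_nonneg _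
  have hρ1 : ∀ n, ρ n < 1 := fun n => by
    rw [hρ]
    exact h₁.1 _ (hz n) _ (hz' n)
  have hρm : ∀ n, ρ (n + 1) ≤ ρ n := by
    intro n
    have h := h₁.2 (φ 1) (hφ.holo 1 zero_le_one) (hφ.maps 1 zero_le_one) (φ n 0) (hz n)
      (φ (n + 1) 0) (hz' n)
    rw [hρ, hρ, hstep (n + 1)]
    push_cast
    rw [← hstep n] at h
    exact h
  have hρ00 : ∀ n, ρ n ≤ ρ 0 := by
    intro n
    induction n with
    | zero => exact le_refl _
    | succ n ih => exact (hρm n).trans ih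
  have hx1 : ∀ n : ℕ, 1 ≤ (W τ (φ n 0)).re := by
    intro n
    have h := h₃ φ τ hφ hDW n (Nat.cast_nonneg n) 0 h0D
    rw [← (h₂ τ hτ (φ n 0) (hz n)).1] at h
    have e : (1 - ‖(0 : ℂ)‖ ^ 2) / ‖τ - 0‖ ^ 2 = 1 := by
      rw [norm_zero, sub_zero, hτ]
      norm_num
    rw [e] at h
    exact h
  have hk : ∀ n, 2 * ρ n / (1 - ρ n) ≤ 2 * ρ n / (1 - ρ 0) := by
    intro n
    apply div_le_div_of_nonneg_left
    · have := hρ0 n
      linarith
    · have := hρ1 0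
      linarith
    · have := hρ00 n
      linarith
  have hka : ∀ n, 0 ≤ 2 * ρ n / (1 - ρ n) := by
    intro n
    have h1 := hρ0 n
    have h2 := hρ1 n
    exact div_nonneg (by linarith) (by linarith)
  refine ⟨fun n => ‖W τ (φ n 0)‖, fun n => (W τ (φ n 0)).re, fun n => 2 * ρ n / (1 - ρ n),
    Real.exp (-2 * C) / 4, 2 * ρ 0 / (1 - ρ 0), by positivity, hka 0, hx1, hka, ?_,
    fun n => norm_nonneg _, ?_, ?_, ?_, ?_⟩
  · intro n
    refine (hk n).trans ?_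
    apply div_le_div_of_nonneg_right _ (by linarith [hρ1 0])
    linarith [hρ00 n]
  · intro n hn
    have hn0 : (0 : ℝ) < n := by
      have : (1 : ℝ) ≤ n := by exact_mod_cast hn
      linarith
    obtain ⟨r, hr1, hr2, hr3⟩ := h₄ τ hτ (φ n 0) (hz n)
    have hx := hx1 n
    have hax : (W τ (φ n 0)).re ≤ ‖W τ (φ n 0)‖ := Complex.re_le_norm _
    have e1 : vT φ τ n ≤ omega (r * τ) (φ n 0) := by
      unfold vT
      apply csInf_le
      · refine ⟨0, ?_⟩
        rintro d ⟨r', h1, h2, rfl⟩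
        exact omega_nonneg h₁ _ _ (mem_diam hτ r' h1 h2) (hz n)
      · exact ⟨r, hr1, hr2, rfl⟩
    have e2 := hv n (by exact_mod_cast hn)
    have e3 : Real.log n - 2 * C ≤ Real.log (4 * ‖W τ (φ n 0)‖ / (W τ (φ n 0)).re) := by
      linarith
    have e4 := Real.exp_le_exp.mpr e3
    rw [Real.exp_log (by apply div_pos <;> linarith), sub_eq_add_neg, Real.exp_add,
      Real.exp_log hn0, le_div_iff₀ (by linarith)] at e4
    have e5 : -(2 * C) = -2 * C := by ring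
    rw [e5] at e4
    show Real.exp (-2 * C) / 4 * n * (W τ (φ n 0)).re ≤ ‖W τ (φ n 0)‖
    linarith
  · intro n
    have h := step_bound (W τ (φ n 0)) (W τ (φ (n + 1) 0)) (ρ n)
      (h₂ τ hτ _ (hz n)).2.1 (h₂ τ hτ _ (hz' n)).2.1 ?_ (hρ0 n) (hρ1 n)
    · show ‖W τ (φ ((n + 1 : ℕ) : ℝ) 0)‖ ≤ ‖W τ (φ n 0)‖ + 2 * ρ n / (1 - ρ n) * (W τ (φ n 0)).re
      push_cast
      exact h
    · rw [hρ]
      exact (h₂ τ hτ _ (hz n)).2.2.1 _ (hz' n)
  · intro ht
    have ht' : Tendsto ρ atTop (𝓝 0) := by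
      have : ρ = fun n : ℕ => psi (φ n 0) (φ (n + 1) 0) := funext hρ
      rw [this]
      exact ht
    have h2 : Tendsto (fun n => 2 * ρ n / (1 - ρ 0)) atTop (𝓝 (2 * 0 / (1 - ρ 0))) :=
      (ht'.const_mul 2).div_const _
    rw [mul_zero, zero_div] at h2
    exact squeeze_zero hka hk h2
  · intro n
    refine ((h₂ τ hτ (φ n 0) (hz n)).2.2.2).trans ?_
    exact div_le_self (by positivity) (hx1 n)

end Pool.Agent.H280.TS
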